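import Pool.Agent.H66.S2.Basic

/-!
# Project T5B, modules EXM and EHR: exterior powers and elementary symmetric functions
-/

set_option autoImplicit false

namespace Pool.H66.S2

/-- EXM: the eigenvalues of an exterior power -/
theorem s_EXM : S_EXM := by
  intro k X _
  refine ⟨(X.powersetCard k).map Multiset.prod, ?_, fun n => ?_, fun e he => ?_⟩
  · rw [Multiset.card_map, Multiset.card_powersetCard]
    exact Nat.choose_le_pow _ _
  · rw [Multiset.map_map, Multiset.esymm, Multiset.powersetCard_map, Multiset.map_map]
    congr 1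
    refine Multiset.map_congr rfl fun Z _ => ?_
    have h := Multiset.prod_map_zpow (m := Z) (f := fun a : ℂ => a) (n := n)
    rw [Multiset.map_id'] at h
    exact h.symm
  · obtain ⟨Z, hZ, rfl⟩ := Multiset.mem_map.1 he
    obtain ⟨h1, h2⟩ := Multiset.mem_powersetCard.1 hZ
    exact ⟨Z, h2, fun z hz => Multiset.mem_of_le h1 hz, rfl⟩

theorem EHR_cons (a : ℂ) (X : Multiset ℂ) (i : ℕ) :
    (a ::ₘ X).esymm (i + 1) = X.esymm (i + 1) + a * X.esymm i := by
  unfold Multiset.esymm
  rw [Multiset.powersetCard_cons, Multiset.map_add, Multiset.sum_add, Multiset.map_map]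
  congr 1
  rw [← Multiset.sum_map_mul_left]
  congr 1
  refine Multiset.map_congr rfl fun Z _ => ?_
  simp

/-- the generating function of the elementary symmetric functions -/
theorem EHR_gen (X : Multiset ℂ) :
    (PowerSeries.mk fun i => (-1 : ℂ) ^ i * X.esymm i) *
      (X.map fun a => (PowerSeries.mk fun n => a ^ n : PowerSeries ℂ)).prod = 1 := by
  induction X using Multiset.induction_on with
  | empty =>
    rw [Multiset.map_zero, Multiset.prod_zero, mul_one]
    ext i
    rw [PowerSeries.coeff_mk, PowerSeries.coeff_one]
    rcases Nat.eq_zero_or_pos i with h | h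
    · subst h; simp [Multiset.esymm]
    · rw [if_neg h.ne']
      have : (0 : Multiset ℂ).esymm i = 0 := by
        unfold Multiset.esymm
        rw [Multiset.powersetCard_eq_empty i (by simpa using h)]
        simp
      rw [this, mul_zero]
  | cons a X ih =>
    have h1 : (PowerSeries.mk fun i => (-1 : ℂ) ^ i * (a ::ₘ X).esymm i) =
        (1 - PowerSeries.C a * PowerSeries.X) * PowerSeries.mk fun i => (-1 : ℂ) ^ i * X.esymm i := by
      ext i
      rw [sub_mul, one_mul, map_sub, mul_assoc, PowerSeries.coeff_C_mul]
      rcases i with _ | i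
      · simp [Multiset.esymm]
      · rw [PowerSeries.coeff_succ_X_mul, PowerSeries.coeff_mk, PowerSeries.coeff_mk,
          PowerSeries.coeff_mk, EHR_cons]
        ring
    have h2 : (1 - PowerSeries.C a * PowerSeries.X) *
        (PowerSeries.mk fun n => a ^ n : PowerSeries ℂ) = 1 := by
      ext i
      rw [sub_mul, one_mul, map_sub, mul_assoc, PowerSeries.coeff_C_mul, PowerSeries.coeff_one]
      rcases i with _ | i
      · simp
      · rw [PowerSeries.coeff_succ_X_mul, PowerSeries.coeff_mk, PowerSeries.coeff_mk,
          if_neg (Nat.succ_ne_zero i)]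
        ring
    rw [Multiset.map_cons, Multiset.prod_cons, h1]
    calc _ = ((1 - PowerSeries.C a * PowerSeries.X) *
          (PowerSeries.mk fun n => a ^ n : PowerSeries ℂ)) *
          ((PowerSeries.mk fun i => (-1 : ℂ) ^ i * X.esymm i) *
            (X.map fun a => (PowerSeries.mk fun n => a ^ n : PowerSeries ℂ)).prod) := by ring
      _ = 1 := by rw [h2, ih, one_mul]

/-- EHR: the relation between elementary and complete symmetric functions -/
theorem s_EHR : S_EHR := by
  intro k X hk
  have h := congrArg (PowerSeries.coeff k) (EHR_gen X)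
  rw [PowerSeries.coeff_mul, PowerSeries.coeff_one, if_neg (by omega),
    Finset.Nat.sum_antidiagonal_eq_sum_range_succ_mk] at h
  rw [← h]
  refine Finset.sum_congr rfl fun i _ => ?_
  rw [PowerSeries.coeff_mk]
  rfl

end Pool.H66.S2
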