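import Pool.Agent.H66.S2.Basic

/-!
# Project T5B, module PRG: the multiplicity of `det ⊗ V_kappa(τ)` in `V_nu(τ)`
-/

set_option autoImplicit false

namespace Pool.H66.S2

open Filter Topology

noncomputable section

/-! ## Algebra -/

/-- `e_a(c) ∏ c_j⁻¹ = e_(m-a)(1/c)` -/
theorem PRG_esymm {m : ℕ} (c : Fin m → ℂ) (hc : ∀ j, c j ≠ 0) (a : ℕ) (ha : a ≤ m) :
    (Finset.univ.val.map c).esymm a * ∏ j, (c j)⁻¹ =
      (Finset.univ.val.map fun j => (c j)⁻¹).esymm (m - a) := by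
  rw [Finset.esymm_map_val, Finset.esymm_map_val, Finset.sum_mul]
  refine Finset.sum_nbij' (fun S => Sᶜ) (fun S => Sᶜ) ?_ ?_ ?_ ?_ ?_
  · intro S hS
    rw [Finset.mem_powersetCard] at hS ⊢
    refine ⟨Finset.subset_univ _, ?_⟩
    rw [Finset.card_compl, Fintype.card_fin, hS.2]
  · intro S hS
    rw [Finset.mem_powersetCard] at hS ⊢
    refine ⟨Finset.subset_univ _, ?_⟩
    rw [Finset.card_compl, Fintype.card_fin, hS.2]
    omega
  · intro S _
    exact compl_compl S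
  · intro S _
    exact compl_compl S
  · intro S _
    rw [← Finset.prod_mul_prod_compl S fun j => (c j)⁻¹, ← mul_assoc,
      ← Finset.prod_mul_distrib, Finset.prod_congr rfl (fun j _ => mul_inv_cancel₀ (hc j)),
      Finset.prod_const_one, one_mul]

theorem PRG_ev_sum {m : ℕ} {ι : Type} (s : Finset ι) (n : ι → ℤ) (φ : ι → (Fin m → ℤ) →₀ ℤ)
    (c : Fin m → ℂ) : ev (∑ i ∈ s, n i • φ i) c = ∑ i ∈ s, (n i : ℂ) * ev (φ i) c := by
  rw [ev_sum]
  refine Finset.sum_congr rfl fun i _ => ?_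
  unfold ev
  rw [Finsupp.sum_smul_index (by intro a; simp), Finsupp.mul_sum]
  refine Finsupp.sum_congr fun a _ => ?_
  push_cast
  ring

/-- `s_nu(c) s_mu(1/c)` is a combination of monomials -/
theorem PRG_prod (hKOS : S_KOS) {m : ℕ} (nu mu : Fin m → ℕ) (hnu : Antitone nu)
    (hmu : Antitone mu) : ∃ φ : (Fin m → ℤ) →₀ ℤ, ∀ c : Fin m → ℂ, (∀ j, c j ≠ 0) →
      ev φ c = schur nu (Finset.univ.val.map c) *
        schur mu (Finset.univ.val.map fun j => (c j)⁻¹) := by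
  obtain ⟨K, hK, -⟩ := hKOS m nu hnu
  obtain ⟨L, hL, -⟩ := hKOS m mu hmu
  refine ⟨∑ x ∈ K.support ×ˢ L.support, (K x.1 * L x.2) • Finsupp.single (x.1 - x.2) 1, ?_⟩
  intro c hc
  rw [PRG_ev_sum, hK, hL, Finset.sum_product]
  unfold ev
  rw [Finsupp.sum, Finsupp.sum, Finset.sum_mul_sum]
  refine Finset.sum_congr rfl fun a _ => Finset.sum_congr rfl fun b _ => ?_
  have h1 : mon (fun j => (c j)⁻¹) b = (mon c b)⁻¹ := by
    unfold mon
    rw [← Finset.prod_inv_distrib]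
    exact Finset.prod_congr rfl fun j _ => inv_zpow _ _
  rw [Finsupp.sum_single_index (by simp), mon_sub c hc, h1]
  push_cast
  ring

/-- complex conjugation of Schur functions -/
theorem PRG_conj (hKOS : S_KOS) {m : ℕ} (nu : Fin m → ℕ) (hnu : Antitone nu) (c : Fin m → ℂ)
    (hc : ∀ j, ‖c j‖ = 1) : starRingEnd ℂ (schur nu (Finset.univ.val.map c)) =
      schur nu (Finset.univ.val.map fun j => (c j)⁻¹) := by
  obtain ⟨K, hK, -⟩ := hKOS m nu hnu
  rw [hK, hK]
  unfold ev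
  rw [Finsupp.sum, Finsupp.sum, map_sum]
  refine Finset.sum_congr rfl fun a _ => ?_
  rw [map_mul, map_intCast]
  congr 1
  unfold mon
  rw [map_prod]
  refine Finset.prod_congr rfl fun j _ => ?_
  rw [map_zpow₀]
  show _ = (c j)⁻¹ ^ a j
  rw [Complex.inv_eq_conj (hc j)]

/-! ## Means -/

theorem PRG_Bd_mul {V : Type} {f g : V → ℂ} (hf : Bd f) (hg : Bd g) : Bd (f * g) := by
  obtain ⟨C, hC⟩ := hf
  obtain ⟨D, hD⟩ := hg
  refine ⟨C * D, fun v => ?_⟩
  rw [Pi.mul_apply, norm_mul]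
  exact mul_le_mul (hC v) (hD v) (norm_nonneg _) ((norm_nonneg _).trans (hC v))

theorem PRG_Bd_cj {V : Type} {f : V → ℂ} (hf : Bd f) : Bd (cj f) := by
  obtain ⟨C, hC⟩ := hf
  refine ⟨C, fun v => ?_⟩
  unfold cj
  rw [RCLike.norm_conj]
  exact hC v

theorem PRG_Bd_fr (hBAS : S_BAS) (A : Aut) {z : A.Cusp} (hz : A.Temp z) : Bd (A.fr z) := by
  refine ⟨A.deg z, fun v => ?_⟩
  unfold AData.fr AData.tr
  refine (norm_multiset_sum_le _).trans ?_
  have h1 : (A.eig z (A.frob v)).map (fun x => ‖x‖) =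
      (A.eig z (A.frob v)).map (fun _ => (1 : ℝ)) :=
    Multiset.map_congr rfl fun a ha => hz v a ha
  rw [h1, Multiset.map_const', Multiset.sum_replicate, (hBAS A).1]
  simp

theorem PRG_Bd_sum {V ι : Type} (s : Finset ι) (n : ι → ℂ) (f : ι → V → ℂ)
    (hf : ∀ i ∈ s, Bd (f i)) : Bd (fun v => ∑ i ∈ s, n i * f i v) := by
  classical
  induction s using Finset.induction_on with
  | empty => exact ⟨0, fun v => by simp⟩
  | insert i s hi ih =>
    obtain ⟨C, hC⟩ := hf i (Finset.mem_insert_self _ _)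
    obtain ⟨D, hD⟩ := ih fun j hj => hf j (Finset.mem_insert_of_mem hj)
    refine ⟨‖n i‖ * C + D, fun v => ?_⟩
    simp only [Finset.sum_insert hi]
    refine (norm_add_le _ _).trans (add_le_add ?_ (hD v))
    rw [norm_mul]
    exact mul_le_mul_of_nonneg_left (hC v) (norm_nonneg _)

theorem PRG_mean_sum {V ι : Type} (μ : Mean V) (s : Finset ι) (n : ι → ℂ) (f : ι → V → ℂ)
    (hf : ∀ i ∈ s, Bd (f i)) :
    μ.m (fun v => ∑ i ∈ s, n i * f i v) = ∑ i ∈ s, n i * μ.m (f i) := by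
  classical
  induction s using Finset.induction_on with
  | empty =>
    have h := μ.smul 0 (fun _ => 0) ⟨0, fun v => by simp⟩
    simpa using h
  | insert i s hi ih =>
    have h1 : (fun v => ∑ j ∈ insert i s, n j * f j v) =
        (fun v => n i * f i v) + fun v => ∑ j ∈ s, n j * f j v := by
      funext v
      rw [Pi.add_apply, Finset.sum_insert hi]
    have h2 : Bd (fun v => n i * f i v) := by
      obtain ⟨C, hC⟩ := hf i (Finset.mem_insert_self _ _)
      refine ⟨‖n i‖ * C, fun v => ?_⟩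
      rw [norm_mul]
      exact mul_le_mul_of_nonneg_left (hC v) (norm_nonneg _)
    rw [h1, μ.add _ _ h2 (PRG_Bd_sum s n f fun j hj => hf j (Finset.mem_insert_of_mem hj)),
      μ.smul _ _ (hf i (Finset.mem_insert_self _ _)),
      ih fun j hj => hf j (Finset.mem_insert_of_mem hj), Finset.sum_insert hi]

theorem s_PRG (hLBX : S_LBX) (hFTE : S_FTE) (hEPI : S_EPI) (hWIP : S_WIP) (hSND : S_SND)
    (hMEA : S_MEA) (hVIC : S_VIC) (hRTA : S_RTA) (hBAS : S_BAS) (hKOS : S_KOS)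
    (hCOL : S_COL) : S_PRG := by
  classical
  intro m k H hm hmk hH A τ hSE hDeg hGood kappa hkap
  obtain ⟨hdeg, htemp, v0, t0, c0, -, hord0, hc0, hgen0, -⟩ := id hGood
  obtain ⟨hcard, hne, hpow, -, -, hmul, hdet, -⟩ := hBAS A
  have hcardτ : ∀ p, (A.eig τ p).card = m := fun p => by rw [hcard, hdeg]
  have hord : ∀ p, ∃ c : Fin m → ℂ, A.Ord τ p c := fun p => exists_ord _ (hcardτ p)
  have hcne : ∀ p (c : Fin m → ℂ), A.Ord τ p c → ∀ j, c j ≠ 0 := by
    intro p c hc j h0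
    apply hne τ p
    rw [show A.eig τ p = Finset.univ.val.map c from hc]
    exact Multiset.mem_map.2 ⟨j, Finset.mem_univ j, h0⟩
  -- the cuspidal representations `V_mu(τ)`
  have hX : ∀ mu : Fin m → ℕ, ∃ x, Antitone mu → ∑ j, mu j < k →
      (∀ p, A.tr x p = schur mu (A.eig τ p)) := by
    intro mu
    by_cases h : Antitone mu ∧ ∑ j, mu j < k
    · obtain ⟨x, hx⟩ := hLBX m k H hm hH A τ hSE hDeg hGood mu h.1 h.2
      exact ⟨x, fun _ _ => hx⟩
    · exact ⟨τ, fun h1 h2 => absurd ⟨h1, h2⟩ h⟩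
  choose X hX using hX
  have hIrr : ∀ (nu : Fin m → ℕ) (x : A.Cusp), Antitone nu →
      (∀ p, A.tr x p = schur nu (A.eig τ p)) →
      x ∈ A.Irr τ m ((∑ j, nu j : ℕ) : ℤ) (∑ j, nu j + m) := by
    intro nu x hnu hx
    exact hVIC A τ m hm hdeg nu hnu {x} (fun p => by rw [eigs_singleton]; exact hx p) x
      (Multiset.mem_singleton_self x)
  obtain ⟨hkap1, hkap2⟩ := id hkap
  have hXk := hX kappa hkap1 (by rw [hkap2]; omega)
  set x := A.mul (A.det τ) (X kappa) with hx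
  have hxtr : ∀ p, A.tr x p = (A.eig τ p).prod * schur kappa (A.eig τ p) := by
    intro p
    have h1 : A.tr x p = A.tr (A.det τ) p * A.tr (X kappa) p := by
      unfold AData.tr
      rw [hx, hmul _ _ _ (A.deg_det τ), Multiset.sum_map_mul_left, Multiset.map_id']
      rfl
    rw [h1, hXk p]
    congr 1
    unfold AData.tr
    rw [hdet, Multiset.sum_singleton]
  have hxk1 : ∀ p, A.tr x p = schur (fun j => kappa j + 1) (A.eig τ p) := by
    intro p
    obtain ⟨c, hc⟩ := hord p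
    rw [hxtr, show A.eig τ p = Finset.univ.val.map c from hc, hCOL]
    rfl
  have hk1 : Antitone (fun j => kappa j + 1) := fun i j h => Nat.succ_le_succ (hkap1 h)
  have hk2 : ∑ j, (kappa j + 1) = k := by
    rw [Finset.sum_add_distrib, hkap2]
    simp
    omega
  have hxI : x ∈ A.Irr τ m k (k + m) := by
    have := hIrr _ x hk1 hxk1
    rwa [hk2] at this
  -- temperedness and orthogonality
  obtain ⟨μ, hμ⟩ := hMEA A
  have hτT : A.Temp τ := (htemp 1 1 τ (hRTA A τ m hm hdeg).2.1).2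
  have hxT : A.Temp x := (htemp _ _ x hxI).2
  have hXT : ∀ mu, Antitone mu → ∑ j, mu j < k → A.Temp (X mu) := fun mu h1 h2 =>
    (htemp _ _ _ (hIrr mu _ h1 (hX mu h1 h2))).2
  have hXinj : ∀ j, j < k → ∀ mu ∈ Par m j, ∀ mu' ∈ Par m j, X mu = X mu' → mu = mu' := by
    intro j hj mu hmu mu' hmu' he
    refine hSND m j c0 hc0 (hgen0.mono (by omega)) mu hmu mu' hmu' fun n _ => ?_
    have h1 := hX mu hmu.1 (by rw [hmu.2]; exact hj) ((⟨v0, t0, 1⟩ : A.Pt).pow n)
    have h2 := hX mu' hmu'.1 (by rw [hmu'.2]; exact hj) ((⟨v0, t0, 1⟩ : A.Pt).pow n)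
    have h3 : A.eig τ ((⟨v0, t0, 1⟩ : A.Pt).pow n) = Finset.univ.val.map fun j => c0 j ^ n := by
      rw [hpow, show A.eig τ ⟨v0, t0, 1⟩ = Finset.univ.val.map c0 from hord0, Multiset.map_map]
      refine Multiset.map_congr rfl fun j _ => ?_
      simp
    rw [h3] at h1 h2
    rw [← h1, ← h2, he]
  refine ⟨x, hxI, hxtr, ?_⟩
  intro nu hnu b hb hbtr
  -- the expansions
  obtain ⟨ψ, hψ1, hψ2⟩ := hFTE m k nu (by omega) hnu
  have hφ := fun a : ℕ => hEPI m (m - a) (k - m) kappa hkap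
  choose φ hφ1 hφ2 using hφ
  have hφ3 : ∀ y ∈ ψ.support, ∀ mu' ∈ (φ y.1).support, mu' ∈ Par m (k - y.1) := by
    intro y hy mu' hmu'
    have h1 := hφ1 y.1 mu' hmu'
    have h2 := hψ1 y hy
    rwa [show k - m + (m - y.1) = k - y.1 by omega] at h1
  have key : ∀ c : Fin m → ℂ, (∀ j, c j ≠ 0) →
      schur nu (Finset.univ.val.map c) * schur (fun j => kappa j + 1)
        (Finset.univ.val.map fun j => (c j)⁻¹) =
      ∑ y ∈ ψ.support, (ψ y : ℂ) * ∑ mu' ∈ (φ y.1).support, (φ y.1 mu' : ℂ) *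
        (schur y.2 (Finset.univ.val.map c) * schur mu' (Finset.univ.val.map fun j => (c j)⁻¹)) := by
    intro c hc
    rw [hψ2 c, hCOL, Finsupp.sum, Finset.sum_mul]
    refine Finset.sum_congr rfl fun y hy => ?_
    have h1 := hψ1 y hy
    have h2 := PRG_esymm c hc y.1 h1.2.1
    have h3 := hφ2 y.1 (fun j => (c j)⁻¹)
    rw [Finsupp.sum] at h3
    calc _ = (ψ y : ℂ) * (schur y.2 (Finset.univ.val.map c) *
          (((Finset.univ.val.map c).esymm y.1 * ∏ j, (c j)⁻¹) *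
            schur kappa (Finset.univ.val.map fun j => (c j)⁻¹))) := by ring
      _ = _ := by
          rw [h2, h3, Finset.mul_sum]
          congr 1
          exact Finset.sum_congr rfl fun mu' _ => by ring
  -- Weyl's integration formula
  obtain ⟨w, hw⟩ := hWIP m
  have hΦ : ∀ nu' mu' : Fin m → ℕ, ∃ Φ : (Fin m → ℤ) →₀ ℤ, Antitone nu' → Antitone mu' →
      ∀ c : Fin m → ℂ, (∀ j, c j ≠ 0) → ev Φ c = schur nu' (Finset.univ.val.map c) *
        schur mu' (Finset.univ.val.map fun j => (c j)⁻¹) := by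
    intro nu' mu'
    by_cases h : Antitone nu' ∧ Antitone mu'
    · obtain ⟨Φ, hΦ⟩ := PRG_prod hKOS nu' mu' h.1 h.2
      exact ⟨Φ, fun _ _ => hΦ⟩
    · exact ⟨0, fun h1 h2 => absurd ⟨h1, h2⟩ h⟩
  choose Φ hΦ using hΦ
  set N : ℤ := ∑ y ∈ ψ.support, ψ y * ∑ mu' ∈ (φ y.1).support, φ y.1 mu' *
    (if y.2 = mu' then 1 else 0) with hN
  set Θ : (Fin m → ℤ) →₀ ℤ := ∑ y ∈ ψ.support, ψ y • ∑ mu' ∈ (φ y.1).support,
    φ y.1 mu' • Φ y.2 mu' with hΘd
  have hΘ : ∀ c : Fin m → ℂ, (∀ j, c j ≠ 0) → ev Θ c = schur nu (Finset.univ.val.map c) *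
      schur (fun j => kappa j + 1) (Finset.univ.val.map fun j => (c j)⁻¹) := by
    intro c hc
    rw [key c hc, hΘd, PRG_ev_sum]
    refine Finset.sum_congr rfl fun y hy => ?_
    rw [PRG_ev_sum]
    congr 1
    refine Finset.sum_congr rfl fun mu' hmu' => ?_
    rw [hΦ y.2 mu' (hψ1 y hy).2.2.2.1 (hφ3 y hy mu' hmu').1 c hc]
  have hwΘ : w Θ = m.factorial * N := by
    rw [hΘd, hN, map_sum, Finset.mul_sum]
    refine Finset.sum_congr rfl fun y hy => ?_
    rw [map_zsmul, smul_eq_mul, map_sum, mul_left_comm]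
    congr 1
    rw [Finset.mul_sum]
    refine Finset.sum_congr rfl fun mu' hmu' => ?_
    rw [map_zsmul, smul_eq_mul]
    have h1 := hw y.2 mu' (hψ1 y hy).2.2.2.1 (hφ3 y hy mu' hmu').1 (Φ y.2 mu')
      (hΦ y.2 mu' (hψ1 y hy).2.2.2.1 (hφ3 y hy mu' hmu').1)
    by_cases h : y.2 = mu'
    · rw [h1.1 h, if_pos h]; ring
    · rw [h1.2 h, if_neg h]; ring
  have hwN := hw nu _ hnu.1 hk1 Θ hΘ
  have hfac : (m.factorial : ℤ) ≠ 0 := by exact_mod_cast m.factorial_ne_zero
  -- the mean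
  have hbN : (b x : ℂ) = (N : ℂ) := by
    have hbT : ∀ z ∈ b.support, A.Temp z := by
      intro z hz
      obtain ⟨d, H', h⟩ := hb z hz
      exact (htemp _ _ z h).2
    set F : A.Pl → ℂ := fun v => schur nu (A.eig τ (A.frob v)) *
      starRingEnd ℂ (A.tr x (A.frob v)) with hF
    have e1 : F = fun v => ∑ z ∈ b.support, (b z : ℂ) * (A.fr z * cj (A.fr x)) v := by
      funext v
      simp only [hF]
      rw [hbtr, Finsupp.sum, Finset.sum_mul]
      refine Finset.sum_congr rfl fun z _ => ?_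
      simp only [Pi.mul_apply, AData.fr, cj]
      ring
    have e2 : F = fun v => ∑ y ∈ ψ.support, (ψ y : ℂ) * (fun v => ∑ mu' ∈ (φ y.1).support,
        (φ y.1 mu' : ℂ) * (A.fr (X y.2) * cj (A.fr (X mu'))) v) v := by
      funext v
      obtain ⟨c, hc⟩ := hord (A.frob v)
      have hc' : A.eig τ (A.frob v) = Finset.univ.val.map c := hc
      have hc1 : ∀ j, ‖c j‖ = 1 := by
        intro j
        apply hτT v
        rw [hc']
        exact Multiset.mem_map.2 ⟨j, Finset.mem_univ j, rfl⟩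
      simp only [hF]
      rw [hxk1, hc', PRG_conj hKOS _ hk1 c hc1, key c (hcne _ c hc)]
      refine Finset.sum_congr rfl fun y hy => ?_
      congr 1
      refine Finset.sum_congr rfl fun mu' hmu' => ?_
      have h1 := hψ1 y hy
      have h2 := hφ3 y hy mu' hmu'
      simp only [Pi.mul_apply, AData.fr, cj]
      rw [hX y.2 h1.2.2.2.1 (by rw [h1.2.2.2.2]; omega), hX mu' h2.1 (by rw [h2.2]; omega), hc',
        PRG_conj hKOS _ h2.1 c hc1]
    have m1 : μ.m F = (b x : ℂ) := by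
      rw [e1, PRG_mean_sum μ _ _ _ fun z hz =>
        PRG_Bd_mul (PRG_Bd_fr hBAS A (hbT z hz)) (PRG_Bd_cj (PRG_Bd_fr hBAS A hxT))]
      by_cases hxb : x ∈ b.support
      · rw [Finset.sum_eq_single x]
        · rw [(hμ x x hxT hxT).1 rfl, mul_one]
        · intro z hz hzx
          rw [(hμ z x (hbT z hz) hxT).2 hzx, mul_zero]
        · exact fun h => absurd hxb h
      · rw [Finsupp.notMem_support_iff.1 hxb, Int.cast_zero]
        refine Finset.sum_eq_zero fun z hz => ?_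
        rw [(hμ z x (hbT z hz) hxT).2 fun h => hxb (h ▸ hz), mul_zero]
    have hBd : ∀ y ∈ ψ.support, ∀ mu' ∈ (φ y.1).support,
        Bd (A.fr (X y.2) * cj (A.fr (X mu'))) := by
      intro y hy mu' hmu'
      have h1 := hψ1 y hy
      have h2 := hφ3 y hy mu' hmu'
      exact PRG_Bd_mul (PRG_Bd_fr hBAS A (hXT y.2 h1.2.2.2.1 (by rw [h1.2.2.2.2]; omega)))
        (PRG_Bd_cj (PRG_Bd_fr hBAS A (hXT mu' h2.1 (by rw [h2.2]; omega))))
    have m2 : μ.m F = (N : ℂ) := by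
      rw [e2, PRG_mean_sum μ _ _ _ fun y hy => PRG_Bd_sum _ _ _ (hBd y hy), hN]
      push_cast
      refine Finset.sum_congr rfl fun y hy => ?_
      rw [PRG_mean_sum μ _ _ _ (hBd y hy)]
      congr 1
      refine Finset.sum_congr rfl fun mu' hmu' => ?_
      congr 1
      have h1 := hψ1 y hy
      have h2 := hφ3 y hy mu' hmu'
      have h3 := hμ (X y.2) (X mu') (hXT y.2 h1.2.2.2.1 (by rw [h1.2.2.2.2]; omega))
        (hXT mu' h2.1 (by rw [h2.2]; omega))
      by_cases h : y.2 = mu'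
      · rw [if_pos h, h3.1 (by rw [h])]
      · rw [if_neg h, h3.2 fun h' => h (hXinj (k - y.1) (by omega) _ h1.2.2.2 _ h2 h')]
    rw [← m1, m2]
  have hbN' : b x = N := by exact_mod_cast hbN
  constructor
  · intro h
    have h1 := hwN.1 h
    rw [hwΘ] at h1
    rw [hbN']
    have h2 : (m.factorial : ℤ) * N = m.factorial * 1 := by rw [h1, mul_one]
    exact mul_left_cancel₀ hfac h2
  · intro h
    have h1 := hwN.2 h
    rw [hwΘ] at h1
    rw [hbN']
    exact (mul_eq_zero.1 h1).resolve_left hfac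

end

end Pool.H66.S2
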